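import Pool.Agent.Q100.UMain

/-!
# MP_be51b2: a projective Banach lattice without topological order unit which is not free

The definitions are in `Pool/Agent/Q100/UDefs.lean`.
-/

set_option autoImplicit false

namespace Pool.Agent.Results.MP_be51b2_an.NotFree

open Q100.U

universe u

/-- The negated form of Q1: in every universe there is a projective Banach lattice `P` without
topological order unit which is not isometrically lattice isomorphic to any `FBL(B)`. -/
theorem result : ∃ P : BLat.{u}, Projective P ∧ (¬ ∃ e : P, TopOrderUnit e) ∧
    ∀ (F : BLat.{u}) (B : Type u) (δ : B → F), IsFBL F B δ → ¬ LatIsometric P F :=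
  main

end Pool.Agent.Results.MP_be51b2_an.NotFree
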